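import Pool.Agent.Lib.MP_3a5363_co.Main

/-!
The first `m` rows of the Sylvester matrix attain the `m`-th Walsh Lebesgue constant.
-/

set_option autoImplicit false

namespace Pool.Agent.Lib.MP_3a5363_co

open Finset

theorem am_leb (n : ℕ) : ∀ r, r ≤ 2 ^ n → leb (2 ^ n + r) = 1 + leb r - r / 2 ^ n := by
  induction n with
  | zero =>
    intro r hr
    have e : leb 2 = 1 := (leb_even 1).trans leb_one
    interval_cases r <;> simp [leb_zero, leb_one, e]
  | succ n ih =>
    intro r hr
    rw [pow_succ] at hr
    obtain ⟨s, rfl | rfl⟩ := Nat.even_or_odd' r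
    · rw [show 2 ^ (n + 1) + 2 * s = 2 * (2 ^ n + s) by ring, leb_even, leb_even, ih s (by omega)]
      push_cast
      field_simp
      ring
    · rw [show 2 ^ (n + 1) + (2 * s + 1) = 2 * (2 ^ n + s) + 1 by ring, leb_odd, leb_odd,
        ih s (by omega), add_assoc (2 ^ n), ih (s + 1) (by omega)]
      push_cast
      field_simp
      ring

/-- the sum of the first `m` rows in column `i` -/
noncomputable def amD (n m : ℕ) (i : Fin (2 ^ n)) : ℝ :=
  ∑ k : Fin (2 ^ n), if k.val < m then sylvester n k i else 0

theorem am_inl (n m : ℕ) (i : Fin (2 ^ n)) :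
    amD (n + 1) m (blocks n (.inl i)) = amD n m i + amD n (m - 2 ^ n) i := by
  rw [amD, ← (blocks n).sum_comp, Fintype.sum_sum_type]
  congr 1
  · exact sum_congr rfl fun k _ => by simp [sylvester, blocks]
  · refine sum_congr rfl fun k _ => ?_
    have : (blocks n (.inr k)).val = 2 ^ n + k := by simp [blocks, add_comm]
    rw [this]
    refine if_congr (by omega) ?_ rfl
    simp [sylvester]

theorem am_inr (n m : ℕ) (i : Fin (2 ^ n)) :
    amD (n + 1) m (blocks n (.inr i)) = amD n m i - amD n (m - 2 ^ n) i := by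
  rw [amD, ← (blocks n).sum_comp, Fintype.sum_sum_type, sub_eq_add_neg]
  congr 1
  · refine sum_congr rfl fun k _ => ?_
    have : (blocks n (.inl k)).val = k := by simp [blocks]
    rw [this]
    refine if_congr Iff.rfl ?_ rfl
    simp [sylvester]
  · rw [amD, ← sum_neg_distrib]
    refine sum_congr rfl fun k _ => ?_
    have : (blocks n (.inr k)).val = 2 ^ n + k := by simp [blocks, add_comm]
    rw [this, apply_ite Neg.neg, neg_zero]
    refine if_congr (by omega) ?_ rfl
    simp [sylvester]

theorem am_zero (n : ℕ) (i : Fin (2 ^ n)) : amD n 0 i = 0 := by simp [amD]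

theorem am_sat (n m : ℕ) (h : 2 ^ n ≤ m) (i : Fin (2 ^ n)) : amD n m i = amD n (2 ^ n) i :=
  sum_congr rfl fun k _ => by rw [if_pos k.2, if_pos (k.2.trans_le h)]

theorem am_first (n : ℕ) : ∀ m, m ≤ 2 ^ n → ∀ i : Fin (2 ^ n), i.val = 0 → amD n m i = m := by
  induction n with
  | zero =>
    intro m hm i _
    interval_cases m <;> simp [amD, sylvester]
  | succ n ih =>
    intro m hm i hi
    rw [pow_succ] at hm
    obtain ⟨i | i, rfl⟩ := (blocks n).surjective i
    · have hi : i.val = 0 := by simpa [blocks] using hi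
      rw [am_inl, ih (m - 2 ^ n) (by omega) i hi]
      rcases le_total m (2 ^ n) with h | h
      · rw [ih m h i hi, Nat.sub_eq_zero_of_le h]; simp
      · rw [am_sat n m h, ih _ le_rfl i hi, Nat.cast_sub h]; ring
    · simp [blocks] at hi

theorem am_full (n : ℕ) : ∀ i : Fin (2 ^ n), i.val ≠ 0 → amD n (2 ^ n) i = 0 := by
  induction n with
  | zero => intro i hi; exact absurd (by have := i.2; omega) hi
  | succ n ih =>
    intro i hi
    have e : 2 ^ (n + 1) - 2 ^ n = 2 ^ n := by rw [pow_succ]; omega
    have h : 2 ^ n ≤ 2 ^ (n + 1) := by rw [pow_succ]; omega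
    obtain ⟨i | i, rfl⟩ := (blocks n).surjective i
    · rw [am_inl, e, am_sat n _ h, ih i (by simpa [blocks] using hi), add_zero]
    · rw [am_inr, e, am_sat n _ h, sub_self]

theorem am_norm (n : ℕ) : ∀ m, m ≤ 2 ^ n → ∑ i, |amD n m i| = 2 ^ n * leb m := by
  induction n with
  | zero =>
    intro m hm
    interval_cases m <;> simp [amD, sylvester, leb_zero, leb_one]
  | succ n ih =>
    intro m hm
    rw [pow_succ] at hm
    rw [← (blocks n).sum_comp, Fintype.sum_sum_type]
    simp only [am_inl, am_inr]
    rcases le_total m (2 ^ n) with h | h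
    · simp only [Nat.sub_eq_zero_of_le h, am_zero, add_zero, sub_zero, ih m h]
      ring
    obtain ⟨r, rfl⟩ := Nat.exists_eq_add_of_le h
    have hr : r ≤ 2 ^ n := by omega
    have hr' : (r : ℝ) ≤ 2 ^ n := by exact_mod_cast hr
    let z : Fin (2 ^ n) := ⟨0, by positivity⟩
    have key : ∀ i, |amD n (2 ^ n + r) i + amD n r i| + |amD n (2 ^ n + r) i - amD n r i| =
        2 * |amD n r i| + if i = z then 2 * (2 ^ n - r : ℝ) else 0 := fun i => by
      rw [am_sat n _ h]
      split_ifs with k
      · rw [k, am_first n _ le_rfl z rfl, am_first n r hr z rfl]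
        push_cast
        rw [abs_of_nonneg (by positivity), abs_of_nonneg (by linarith), abs_of_nonneg (by positivity)]
        ring
      · rw [am_full n i fun e => k (Fin.ext e), zero_add, zero_sub, abs_neg]
        ring
    rw [Nat.add_sub_cancel_left, ← sum_add_distrib, sum_congr rfl fun i _ => key i,
      sum_add_distrib, ← mul_sum, ih r hr, am_leb n r hr]
    simp only [sum_ite_eq', mem_univ, if_true]
    field_simp
    ring

end Pool.Agent.Lib.MP_3a5363_co
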