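import Pool.Agent.Lib.MP_3a5363_co.Defs

/-!
The spectral norm of a set of `m` points is at least the `m`-th Walsh Lebesgue constant.
-/

set_option autoImplicit false

namespace Pool.Agent.Lib.MP_3a5363_co

open Finset

/-- the Lebesgue constants of the Walsh system -/
noncomputable def leb : ℕ → ℝ
  | 0 => 0
  | 1 => 1
  | n + 2 => if (n + 2) % 2 = 0 then leb ((n + 2) / 2)
      else (leb ((n + 2) / 2) + leb ((n + 2) / 2 + 1) + 1) / 2
decreasing_by all_goals omega

theorem leb_zero : leb 0 = 0 := by rw [leb]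

theorem leb_one : leb 1 = 1 := by rw [leb]

theorem leb_even (m : ℕ) : leb (2 * m) = leb m := by
  rcases m with _ | m
  · rfl
  · have e : 2 * (m + 1) = 2 * m + 2 := by ring
    rw [e, leb, if_pos (by omega)]
    congr 1
    omega

theorem leb_odd (m : ℕ) : leb (2 * m + 1) = (leb m + leb (m + 1) + 1) / 2 := by
  rcases m with _ | m
  · simp [leb_zero, leb_one]
  · have e : 2 * (m + 1) + 1 = (2 * m + 1) + 2 := by ring
    have e2 : (2 * m + 1 + 2) / 2 = m + 1 := by omega
    rw [e, leb, if_neg (by omega), e2]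

theorem leb_lip (m : ℕ) : |leb (m + 1) - leb m| ≤ 1 := by
  induction m using Nat.strong_induction_on with
  | _ m ih =>
    obtain ⟨k, rfl | rfl⟩ := Nat.even_or_odd' m
    · rcases k with _ | k
      · simp [leb_zero, leb_one]
      · have := abs_le.1 (ih (k + 1) (by omega))
        rw [leb_odd, leb_even, abs_le]
        constructor <;> linarith [this.1, this.2]
    · have := abs_le.1 (ih k (by omega))
      have e : 2 * k + 1 + 1 = 2 * (k + 1) := by ring
      rw [e, leb_odd, leb_even, abs_le]
      constructor <;> linarith [this.1, this.2]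

theorem leb_add (m s : ℕ) : |leb (m + s) - leb m| ≤ s := by
  induction s with
  | zero => simp
  | succ s ih =>
    have h1 := abs_le.1 (leb_lip (m + s))
    have h2 := abs_le.1 ih
    rw [← add_assoc, abs_le]
    push_cast
    constructor <;> linarith [h1.1, h1.2, h2.1, h2.2]

theorem leb_split' (b t : ℕ) : 2 * leb (b + t + b) ≤ leb (b + t) + leb b + t := by
  obtain ⟨s, rfl | rfl⟩ := Nat.even_or_odd' t
  · have e : b + 2 * s + b = 2 * (b + s) := by ring
    have e2 : b + 2 * s = b + s + s := by ring
    have h1 := abs_le.1 (leb_add (b + s) s)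
    have h2 := abs_le.1 (leb_add b s)
    rw [e, leb_even, e2]
    push_cast
    linarith [h1.1, h2.2]
  · have e : b + (2 * s + 1) + b = 2 * (b + s) + 1 := by ring
    have e2 : b + (2 * s + 1) = b + s + 1 + s := by ring
    have h1 := abs_le.1 (leb_add (b + s + 1) s)
    have h2 := abs_le.1 (leb_add b s)
    rw [e, leb_odd, e2]
    push_cast
    linarith [h1.1, h2.2]

theorem leb_split (a b : ℕ) : 2 * leb (a + b) ≤ leb a + leb b + |(a : ℝ) - b| := by
  rcases le_total b a with h | h
  · obtain ⟨t, rfl⟩ := Nat.exists_eq_add_of_le h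
    have := leb_split' b t
    push_cast
    rwa [add_sub_cancel_left, abs_of_nonneg (Nat.cast_nonneg t)]
  · obtain ⟨t, rfl⟩ := Nat.exists_eq_add_of_le h
    have := leb_split' a t
    push_cast
    rw [sub_add_cancel_left, abs_neg, abs_of_nonneg (Nat.cast_nonneg t), add_comm a (a + t)]
    linarith

theorem abs_pair (u v t : ℝ) (h1 : t ≤ |u + v|) (h2 : t ≤ |u - v|) :
    |u| + |v| + t ≤ |u + v| + |u - v| := by
  rcases abs_cases u with ⟨a, a'⟩ | ⟨a, a'⟩ <;> rcases abs_cases v with ⟨b, b'⟩ | ⟨b, b'⟩ <;>
    rcases abs_cases (u + v) with ⟨c, c'⟩ | ⟨c, c'⟩ <;>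
    rcases abs_cases (u - v) with ⟨d, d'⟩ | ⟨d, d'⟩ <;> linarith

/-- the main inequality for a sign matrix whose columns are permuted by each column -/
theorem main {X I : Type*} [DecidableEq X] [Fintype I] [Nonempty I] (s : X → I → ℝ)
    (hpm : ∀ x i, s x i = 1 ∨ s x i = -1)
    (hmul : ∀ j, ∃ τ : Equiv.Perm I, ∀ x i, s x (τ i) = s x i * s x j) (A : Finset X) :
    (Fintype.card I : ℝ) * leb A.card ≤ ∑ i, |∑ x ∈ A, s x i| := by
  classical
  induction A using Finset.strongInduction with
  | H A ih =>
    obtain ⟨j, -, hj⟩ := exists_min_image (univ : Finset I) (fun i => |∑ x ∈ A, s x i|)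
      univ_nonempty
    set A0 := A.filter (fun x => s x j = 1) with hA0
    set A1 := A.filter (fun x => ¬ s x j = 1) with hA1
    have hc : A0.card + A1.card = A.card := card_filter_add_card_filter_not _
    have hm1 : ∀ x ∈ A1, s x j = -1 := fun x hx => (hpm x j).resolve_left (mem_filter.1 hx).2
    have hsum : ∀ i, ∑ x ∈ A, s x i = ∑ x ∈ A0, s x i + ∑ x ∈ A1, s x i := fun i =>
      (sum_filter_add_sum_filter_not _ _ _).symm
    have hj0 : ∑ x ∈ A, s x j = (A0.card : ℝ) - A1.card := by
      rw [hsum, sum_congr rfl (fun x hx => (mem_filter.1 hx).2), sum_congr rfl hm1]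
      simp [sub_eq_add_neg, hA0]
    by_cases hA : A0.Nonempty ∧ A1.Nonempty
    · obtain ⟨τ, hτ⟩ := hmul j
      have s0 : A0 ⊂ A := by
        obtain ⟨x, hx⟩ := hA.2
        exact filter_ssubset.2 ⟨x, (mem_filter.1 hx).1, (mem_filter.1 hx).2⟩
      have s1 : A1 ⊂ A := by
        obtain ⟨x, hx⟩ := hA.1
        exact filter_ssubset.2 ⟨x, (mem_filter.1 hx).1, not_not.2 (mem_filter.1 hx).2⟩
      have h0 := ih A0 s0
      have h1 := ih A1 s1
      have hdiff : ∀ i, ∑ x ∈ A, s x (τ i) = ∑ x ∈ A0, s x i - ∑ x ∈ A1, s x i := by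
        intro i
        rw [hsum, sub_eq_add_neg, ← sum_neg_distrib]
        congr 1
        · exact sum_congr rfl fun x hx => by rw [hτ, (mem_filter.1 hx).2, mul_one]
        · exact sum_congr rfl fun x hx => by rw [hτ, hm1 x hx, mul_neg_one]
      have key : ∀ i, |∑ x ∈ A0, s x i| + |∑ x ∈ A1, s x i| + |(A0.card : ℝ) - A1.card|
          ≤ |∑ x ∈ A, s x i| + |∑ x ∈ A, s x (τ i)| := by
        intro i
        have e1 := hj i (mem_univ _)
        have e2 := hj (τ i) (mem_univ _)
        rw [hj0] at e1 e2
        rw [hdiff] at e2 ⊢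
        rw [hsum i] at e1 ⊢
        exact abs_pair _ _ _ e1 e2
      have h2 := sum_le_sum (fun i (_ : i ∈ (univ : Finset I)) => key i)
      rw [sum_add_distrib, sum_add_distrib, sum_add_distrib,
        Equiv.sum_comp τ (fun i => |∑ x ∈ A, s x i|), sum_const, card_univ, nsmul_eq_mul] at h2
      have h3 := mul_le_mul_of_nonneg_left (leb_split A0.card A1.card)
        (Nat.cast_nonneg (α := ℝ) (Fintype.card I))
      rw [hc] at h3
      linarith
    · -- the smallest column sum has absolute value `|A|`
      have ht : |∑ x ∈ A, s x j| = A.card := by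
        rw [hj0, ← hc]
        rcases not_and_or.1 hA with h | h <;> rw [not_nonempty_iff_eq_empty] at h <;> simp [h]
      have hle : leb A.card ≤ A.card := by
        have := (abs_le.1 (leb_add 0 A.card)).2
        simpa [leb_zero] using this
      calc (Fintype.card I : ℝ) * leb A.card ≤ (Fintype.card I : ℝ) * A.card := by gcongr
        _ = ∑ _i : I, (A.card : ℝ) := by simp
        _ ≤ _ := sum_le_sum fun i _ => by rw [← ht]; exact hj i (mem_univ _)

theorem sylvester_pm (n : ℕ) : ∀ x i, sylvester n x i = 1 ∨ sylvester n x i = -1 := by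
  induction n with
  | zero => exact fun _ _ => Or.inl rfl
  | succ n ih =>
    intro x i
    obtain ⟨x, rfl⟩ := (blocks n).surjective x
    obtain ⟨i, rfl⟩ := (blocks n).surjective i
    rcases x with x | x <;> rcases i with i | i <;>
      rcases ih x i with h | h <;> simp [sylvester, h]

theorem sylvester_mul (n : ℕ) : ∀ j, ∃ τ : Equiv.Perm (Fin (2 ^ n)), ∀ x i,
    sylvester n x (τ i) = sylvester n x i * sylvester n x j := by
  induction n with
  | zero => exact fun _ => ⟨1, fun _ _ => by simp [sylvester]⟩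
  | succ n ih =>
    intro j
    obtain ⟨j, rfl⟩ := (blocks n).surjective j
    rcases j with j | j
    · obtain ⟨τ, hτ⟩ := ih j
      refine ⟨(blocks n).symm.trans ((Equiv.sumCongr τ τ).trans (blocks n)), fun x i => ?_⟩
      obtain ⟨x, rfl⟩ := (blocks n).surjective x
      obtain ⟨i, rfl⟩ := (blocks n).surjective i
      rcases x with x | x <;> rcases i with i | i <;> simp [sylvester, hτ]
    · obtain ⟨τ, hτ⟩ := ih j
      refine ⟨(blocks n).symm.trans (((Equiv.sumCongr τ τ).trans (Equiv.sumComm _ _)).trans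
        (blocks n)), fun x i => ?_⟩
      obtain ⟨x, rfl⟩ := (blocks n).surjective x
      obtain ⟨i, rfl⟩ := (blocks n).surjective i
      rcases x with x | x <;> rcases i with i | i <;> simp [sylvester, hτ]

/-- the Jacobsthal numbers `m_n` -/
def jac : ℕ → ℕ
  | 0 => 1
  | 1 => 1
  | n + 2 => jac (n + 1) + 2 * jac n

theorem jac_cast (n : ℕ) : (jac n : ℝ) = (2 ^ (n + 1) + (-1) ^ n) / 3 := by
  induction n using Nat.twoStepInduction with
  | zero => norm_num [jac]
  | one => norm_num [jac]
  | more n h0 h1 =>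
    rw [jac]
    push_cast
    rw [h0, h1]
    ring

theorem jac_step (n : ℕ) : jac (n + 1) = 2 * jac n + 1 ∨ jac (n + 1) + 1 = 2 * jac n := by
  induction n with
  | zero => simp [jac]
  | succ n ih =>
    rw [jac]
    omega

theorem leb_jac (n : ℕ) :
    2 ^ n * leb (jac n) = (3 * n + 7) * 2 ^ n / 9 + 2 * (-1) ^ n / 9 := by
  induction n using Nat.twoStepInduction with
  | zero => norm_num [jac, leb_one]
  | one => norm_num [jac, leb_one]
  | more n h0 h1 =>
    have key : leb (jac (n + 2)) = (leb (jac (n + 1)) + leb (jac n) + 1) / 2 := by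
      rw [jac]
      rcases jac_step n with h | h
      · have e : jac (n + 1) + 2 * jac n = 2 * (2 * jac n) + 1 := by omega
        rw [e, leb_odd, leb_even, ← h]
        ring
      · have e : jac (n + 1) + 2 * jac n = 2 * jac (n + 1) + 1 := by omega
        rw [e, leb_odd, h, leb_even]
    rw [key]
    push_cast at h1 ⊢
    linear_combination 2 * h0 + h1

theorem jac_le (n : ℕ) : jac n ≤ 2 ^ n := by
  induction n using Nat.twoStepInduction with
  | zero => simp [jac]
  | one => simp [jac]
  | more n h0 h1 =>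
    rw [jac, pow_succ, pow_succ]
    rw [pow_succ] at h1
    omega

end Pool.Agent.Lib.MP_3a5363_co
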